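import Pool.Agent.H43.BZ.Stm

/-!
# BZ-DBL: doubling of the polar angle
-/

set_option autoImplicit false

open MeasureTheory Metric Set
open scoped RealInnerProductSpace ENNReal

namespace Pool.Agent.H337.BZ

open Pool.Agent.H43.BZ

theorem key {d : ℕ} (hd : 2 ≤ d) {c : ℝ} (h0 : 0 < c) (h1 : c < 1) :
    4 * c * (1 - (2 * c ^ 2 - 1) ^ 2) ^ (((d : ℝ) - 3) / 2) =
      (1 - c ^ 2) ^ (((d : ℝ) - 3) / 2) * (2 ^ (d - 1) * c ^ (d - 2)) := by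
  have hc2 : 0 ≤ 1 - c ^ 2 := by nlinarith
  have h2c : 0 < 2 * c := by positivity
  have e1 : 1 - (2 * c ^ 2 - 1) ^ 2 = (2 * c) ^ (2 : ℝ) * (1 - c ^ 2) := by
    rw [Real.rpow_two]
    ring
  have e2 : (2 : ℝ) * (((d : ℝ) - 3) / 2) = (d : ℝ) - 3 := by ring
  have e3 : (2 * c) * (2 * c) ^ ((d : ℝ) - 3) = (2 * c) ^ (d - 2) := by
    have e4 : ((d - 2 : ℕ) : ℝ) = 1 + ((d : ℝ) - 3) := by
      rw [Nat.cast_sub hd]
      push_cast
      ring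
    rw [← Real.rpow_natCast, e4, Real.rpow_add h2c, Real.rpow_one]
  have e5 : (2 : ℝ) ^ (d - 1) = 2 * 2 ^ (d - 2) := by
    obtain ⟨k, rfl⟩ : ∃ k, d = k + 2 := ⟨d - 2, by omega⟩
    have e6 : k + 2 - 1 = k + 1 := by omega
    have e7 : k + 2 - 2 = k := by omega
    rw [e6, e7, pow_succ]
    ring
  rw [e1, Real.mul_rpow (Real.rpow_nonneg h2c.le _) hc2, ← Real.rpow_mul h2c.le, e2, e5]
  have e8 : (2 * c) ^ (d - 2) = 2 ^ (d - 2) * c ^ (d - 2) := mul_pow _ _ _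
  rw [e8] at e3
  calc 4 * c * ((2 * c) ^ ((d : ℝ) - 3) * (1 - c ^ 2) ^ (((d : ℝ) - 3) / 2))
      = 2 * ((2 * c) * (2 * c) ^ ((d : ℝ) - 3)) * (1 - c ^ 2) ^ (((d : ℝ) - 3) / 2) := by ring
    _ = 2 * (2 ^ (d - 2) * c ^ (d - 2)) * (1 - c ^ 2) ^ (((d : ℝ) - 3) / 2) := by rw [e3]
    _ = _ := by ring

theorem img : (fun c : ℝ => 2 * c ^ 2 - 1) '' Ioo 0 1 = Ioo (-1 : ℝ) 1 := by
  ext x
  constructor
  · rintro ⟨c, ⟨h0, h1⟩, rfl⟩
    constructor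
    · show -1 < 2 * c ^ 2 - 1
      nlinarith
    · show 2 * c ^ 2 - 1 < 1
      nlinarith
  · rintro ⟨h0, h1⟩
    have hx : 0 < (x + 1) / 2 := by linarith
    refine ⟨Real.sqrt ((x + 1) / 2), ⟨Real.sqrt_pos.2 hx, ?_⟩, ?_⟩
    · rw [Real.sqrt_lt' one_pos]
      linarith
    · show 2 * Real.sqrt ((x + 1) / 2) ^ 2 - 1 = x
      rw [Real.sq_sqrt hx.le]
      ring

theorem inj : InjOn (fun c : ℝ => 2 * c ^ 2 - 1) (Ioo 0 1) := by
  rintro a ⟨ha, _⟩ b ⟨hb, _⟩ hab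
  have h1 : 2 * a ^ 2 - 1 = 2 * b ^ 2 - 1 := hab
  have h2 : (a - b) * (a + b) = 0 := by linear_combination h1 / 2
  rcases mul_eq_zero.1 h2 with h3 | h3
  · linarith
  · linarith

theorem der (c : ℝ) : HasDerivAt (fun c : ℝ => 2 * c ^ 2 - 1) (4 * c) c := by
  have h1 : HasDerivAt (fun c : ℝ => c ^ 2) (2 * c) c := by
    have := hasDerivAt_pow 2 c
    simpa using this
  have h2 := (h1.const_mul 2).sub_const 1
  have e : 2 * (2 * c) = 4 * c := by ring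
  rw [e] at h2
  exact h2

/-- **DBL.** -/
theorem DBL (hz : S_ZON) : S_DBL := by
  intro d hd e he h hh
  obtain ⟨κ, -, -, hκ⟩ := hz d hd
  have hm : Measurable fun c : ℝ => if 0 < c then
      ENNReal.ofReal (2 ^ (d - 1) * c ^ (d - 2)) * h (2 * c ^ 2 - 1) else 0 := by
    refine Measurable.ite measurableSet_Ioi (Measurable.mul ?_ (hh.comp ?_)) measurable_const
    · fun_prop
    · fun_prop
  refine (hκ e he h hh).trans (Eq.trans ?_ (hκ e he (fun c : ℝ => if 0 < c then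
      ENNReal.ofReal (2 ^ (d - 1) * c ^ (d - 2)) * h (2 * c ^ 2 - 1) else 0) hm).symm)
  congr 1
  have h1 := lintegral_image_eq_lintegral_abs_deriv_mul (measurableSet_Ioo (a := (0 : ℝ)) (b := 1))
    (fun c _ => (der c).hasDerivWithinAt) inj
    (fun x => ENNReal.ofReal ((1 - x ^ 2) ^ (((d : ℝ) - 3) / 2)) * h x)
  rw [img] at h1
  rw [h1]
  have h2 : ∀ x : ℝ, ENNReal.ofReal ((1 - x ^ 2) ^ (((d : ℝ) - 3) / 2)) * (if 0 < x then
      ENNReal.ofReal (2 ^ (d - 1) * x ^ (d - 2)) * h (2 * x ^ 2 - 1) else 0) =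
      (Ioi (0 : ℝ)).indicator (fun x => ENNReal.ofReal ((1 - x ^ 2) ^ (((d : ℝ) - 3) / 2)) *
        (ENNReal.ofReal (2 ^ (d - 1) * x ^ (d - 2)) * h (2 * x ^ 2 - 1))) x := by
    intro x
    by_cases hx : 0 < x
    · rw [if_pos hx, indicator_of_mem (show x ∈ Ioi (0 : ℝ) from hx)]
    · rw [if_neg hx, mul_zero, indicator_of_notMem (show x ∉ Ioi (0 : ℝ) from hx)]
  rw [lintegral_congr h2, setLIntegral_indicator measurableSet_Ioi]
  have h3 : Ioi (0 : ℝ) ∩ Ioo (-1 : ℝ) 1 = Ioo 0 1 := by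
    ext x
    constructor
    · rintro ⟨a, _, b⟩
      exact ⟨a, b⟩
    · rintro ⟨a, b⟩
      exact ⟨a, by linarith, b⟩
  rw [h3]
  refine setLIntegral_congr_fun measurableSet_Ioo fun c hc => ?_
  obtain ⟨h0, h1'⟩ := hc
  show ENNReal.ofReal |4 * c| * (ENNReal.ofReal ((1 - (2 * c ^ 2 - 1) ^ 2) ^ (((d : ℝ) - 3) / 2)) *
    h (2 * c ^ 2 - 1)) = ENNReal.ofReal ((1 - c ^ 2) ^ (((d : ℝ) - 3) / 2)) *
      (ENNReal.ofReal (2 ^ (d - 1) * c ^ (d - 2)) * h (2 * c ^ 2 - 1))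
  have hpos : 0 ≤ 4 * c := by positivity
  have hc2 : 0 ≤ 1 - c ^ 2 := by nlinarith
  rw [abs_of_nonneg hpos, ← mul_assoc, ← mul_assoc, ← ENNReal.ofReal_mul hpos,
    ← ENNReal.ofReal_mul (Real.rpow_nonneg hc2 _), key hd h0 h1']

end Pool.Agent.H337.BZ
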